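import Mathlib

/-!
`MP_237b44_co`, Q2: the interval `[n]` does not always contain the largest number of tiles of the
integers among all `n`-element sets of integers. The smallest example found has `n = 10`.
-/

namespace Pool.Agent.Results.MP_237b44_co.IntervalNotOptimal

/-- `S ⊆ ℤ` is a tile: there are integers `z i` such that `ℤ` is the disjoint union of the
translates `S + z i`. -/
def IsTile (S : Set ℤ) : Prop :=
  ∃ (ι : Type) (z : ι → ℤ),
    (∀ i j, i ≠ j → Disjoint {x : ℤ | ∃ s ∈ S, x = s + z i} {x : ℤ | ∃ s ∈ S, x = s + z j}) ∧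
    (⋃ i, {x : ℤ | ∃ s ∈ S, x = s + z i}) = Set.univ

/-- `T M` is the number of subsets of the finite set `M ⊆ ℤ` that are tiles. -/
noncomputable def T (M : Finset ℤ) : ℕ :=
  {A : Finset ℤ | A ⊆ M ∧ IsTile (A : Set ℤ)}.ncard

/-! ### Subsets coded by bit masks -/

/-- The elements of a list selected by the binary digits of `m`. -/
def sub {α : Type} : List α → ℕ → List α
  | [], _ => []
  | a :: l, m => if m % 2 = 1 then a :: sub l (m / 2) else sub l (m / 2)

theorem sub_map {α β : Type} (f : α → β) : ∀ (l : List α) (m : ℕ),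
    sub (l.map f) m = (sub l m).map f
  | [], _ => rfl
  | a :: l, m => by
      simp only [List.map_cons, sub]
      split_ifs
      · simp [sub_map f l]
      · exact sub_map f l _

theorem mem_of_mem_sub {α : Type} : ∀ (l : List α) (m : ℕ) (x : α), x ∈ sub l m → x ∈ l
  | [], _, _, h => h
  | a :: l, m, x, h => by
      simp only [sub] at h
      split_ifs at h
      · rcases List.mem_cons.1 h with h | h
        · exact List.mem_cons.2 (Or.inl h)
        · exact List.mem_cons.2 (Or.inr (mem_of_mem_sub l _ x h))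
      · exact List.mem_cons.2 (Or.inr (mem_of_mem_sub l _ x h))

theorem exists_mask {α : Type} : ∀ (l : List α), l.Nodup → ∀ (A : Set α),
    ∃ m, m < 2 ^ l.length ∧ ∀ x, x ∈ sub l m ↔ x ∈ l ∧ x ∈ A
  | [], _, _ => ⟨0, by simp, by simp [sub]⟩
  | a :: l, hl, A => by
      classical
      obtain ⟨m, hm, h⟩ := exists_mask l (List.nodup_cons.1 hl).2 A
      by_cases ha : a ∈ A
      · refine ⟨2 * m + 1, by simp only [List.length_cons, pow_succ]; omega, fun x => ?_⟩
        have h1 : (2 * m + 1) % 2 = 1 := by omega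
        have h2 : (2 * m + 1) / 2 = m := by omega
        simp only [sub, h1, h2, if_true, List.mem_cons, h]
        constructor
        · rintro (rfl | ⟨h3, h4⟩)
          · exact ⟨Or.inl rfl, ha⟩
          · exact ⟨Or.inr h3, h4⟩
        · rintro ⟨rfl | h3, h4⟩
          · exact Or.inl rfl
          · exact Or.inr ⟨h3, h4⟩
      · refine ⟨2 * m, by simp only [List.length_cons, pow_succ]; omega, fun x => ?_⟩
        have h1 : ¬ (2 * m) % 2 = 1 := by omega
        have h2 : (2 * m) / 2 = m := by omega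
        simp only [sub, h1, h2, if_false, List.mem_cons, h]
        constructor
        · rintro ⟨h3, h4⟩
          exact ⟨Or.inr h3, h4⟩
        · rintro ⟨rfl | h3, h4⟩
          · exact absurd h4 ha
          · exact ⟨h3, h4⟩

theorem mask_inj {α : Type} : ∀ (l : List α), l.Nodup → ∀ m m' : ℕ,
    m < 2 ^ l.length → m' < 2 ^ l.length → (∀ x, x ∈ sub l m ↔ x ∈ sub l m') → m = m'
  | [], _, m, m', hm, hm', _ => by
      simp only [List.length_nil, pow_zero] at hm hm'
      omega
  | a :: l, hl, m, m', hm, hm', h => by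
      simp only [List.length_cons, pow_succ] at hm hm'
      have hnot : ∀ k, a ∉ sub l k := fun k hk => (List.nodup_cons.1 hl).1 (mem_of_mem_sub l k a hk)
      have hkey : m / 2 = m' / 2 := by
        refine mask_inj l (List.nodup_cons.1 hl).2 _ _ (by omega) (by omega) (fun x => ?_)
        by_cases hx : x = a
        · subst hx
          exact ⟨fun h' => absurd h' (hnot _), fun h' => absurd h' (hnot _)⟩
        · have := h x
          simp only [sub] at this
          split_ifs at this <;> simpa [hx] using this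
      have hpar : m % 2 = m' % 2 := by
        have := h a
        simp only [sub] at this
        split_ifs at this with h1 h2 h2
        · omega
        · exact absurd (this.1 (by simp)) (hnot _)
        · exact absurd (this.2 (by simp)) (hnot _)
        · omega
      omega

/-! ### Certificates for tiles -/

/-- Boolean check that `A` and `B` are complementary modulo `N`. -/
def certOK (A : List ℕ) (N : ℕ) (B : List ℕ) : Bool :=
  decide (0 < N) && (A.length * B.length == N) &&
    (List.range N).all (fun r => A.any fun a => B.any fun b => (a + b) % N == r)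

theorem isTile_of_cert (A : List ℕ) (N : ℕ) (B : List ℕ) (h : certOK A N B = true) :
    IsTile {x : ℤ | ∃ a ∈ A, (a : ℤ) = x} := by
  simp only [certOK, Bool.and_eq_true, decide_eq_true_eq, beq_iff_eq, List.all_eq_true,
    List.mem_range, List.any_eq_true] at h
  obtain ⟨⟨hN, hcard⟩, hcov⟩ := h
  let f : Fin A.length × Fin B.length → Fin N :=
    fun p => ⟨(A.get p.1 + B.get p.2) % N, Nat.mod_lt _ hN⟩
  have hsurj : Function.Surjective f := by
    rintro ⟨r, hr⟩
    obtain ⟨a, ha, b, hb, hab⟩ := hcov r hr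
    obtain ⟨i, hi⟩ := List.get_of_mem ha
    obtain ⟨j, hj⟩ := List.get_of_mem hb
    refine ⟨(i, j), ?_⟩
    simp only [f, hi, hj, hab]
  have hinj : Function.Injective f := by
    have : Fintype.card (Fin A.length × Fin B.length) = Fintype.card (Fin N) := by
      simp [hcard]
    exact ((Fintype.bijective_iff_surjective_and_card f).2 ⟨hsurj, this⟩).1
  refine ⟨Fin B.length × ℤ, fun p => (B.get p.1 : ℤ) + N * p.2, ?_, ?_⟩
  · rintro ⟨j, k⟩ ⟨j', k'⟩ hne
    rw [Set.disjoint_left]
    rintro x ⟨s, ⟨a, ha, rfl⟩, hx⟩ ⟨s', ⟨a', ha', rfl⟩, hx'⟩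
    obtain ⟨i, hi⟩ := List.get_of_mem ha
    obtain ⟨i', hi'⟩ := List.get_of_mem ha'
    simp only at hx hx'
    have hmod : f (i, j) = f (i', j') := by
      simp only [f, Fin.mk.injEq, hi, hi']
      have h1 : ((a + B.get j : ℕ) : ℤ) % N = ((a' + B.get j' : ℕ) : ℤ) % N := by
        have e1 : ((a + B.get j : ℕ) : ℤ) = x - N * k := by push_cast; linarith
        have e2 : ((a' + B.get j' : ℕ) : ℤ) = x - N * k' := by push_cast; linarith
        rw [e1, e2, Int.sub_mul_emod_self_left, Int.sub_mul_emod_self_left]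
      exact_mod_cast h1
    have := hinj hmod
    simp only [Prod.mk.injEq] at this
    obtain ⟨h1, h2⟩ := this
    subst h2
    subst h1
    apply hne
    have haa : a = a' := by rw [← hi, ← hi']
    subst haa
    have : (N : ℤ) * k = N * k' := by linarith
    have hN' : (N : ℤ) ≠ 0 := by exact_mod_cast hN.ne'
    rw [mul_left_cancel₀ hN' this]
  · rw [Set.eq_univ_iff_forall]
    intro x
    have hN' : (0 : ℤ) < N := by exact_mod_cast hN
    have hr0 : 0 ≤ x % N := Int.emod_nonneg _ hN'.ne'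
    have hr1 : x % N < N := Int.emod_lt_of_pos _ hN'
    obtain ⟨r, hr⟩ := Int.eq_ofNat_of_zero_le hr0
    have hrN : r < N := by omega
    obtain ⟨a, ha, b, hb, hab⟩ := hcov r hrN
    obtain ⟨j, hj⟩ := List.get_of_mem hb
    rw [Set.mem_iUnion]
    have hdvd : (N : ℤ) ∣ x - (a + b) := by
      have h1 : ((a + b : ℕ) : ℤ) % N = x % N := by
        rw [hr, ← hab]; push_cast; rfl
      have h2 : ((a + b : ℕ) : ℤ) ≡ x [ZMOD N] := h1
      have := h2.dvd
      push_cast at this
      exact this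
    obtain ⟨k, hk⟩ := hdvd
    refine ⟨(j, k), (a : ℤ), ⟨a, ha, rfl⟩, ?_⟩
    simp only [hj]
    linarith

/-! ### Refutations for non-tiles -/

/-- The bit mask of a list of natural numbers. -/
def maskOf : List ℕ → ℕ
  | [] => 0
  | a :: l => (1 <<< a) ||| maskOf l

theorem testBit_maskOf : ∀ (l : List ℕ) (d : ℕ), (maskOf l).testBit d = true ↔ d ∈ l
  | [], d => by simp [maskOf]
  | a :: l, d => by
      simp only [maskOf, Nat.testBit_or, Bool.or_eq_true, testBit_maskOf l d, List.mem_cons]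
      rw [Nat.one_shiftLeft, Nat.testBit_two_pow]
      simp only [decide_eq_true_eq]
      constructor
      · rintro (h | h)
        · exact Or.inl h.symm
        · exact Or.inr h
      · rintro (h | h)
        · exact Or.inl h.symm
        · exact Or.inr h

/-- Backtracking search. `occ` is the set of cells covered by the translates placed so far; the
search looks for the first uncovered cell from `c` on and tries to cover it in every way. It
returns `true` only if every branch dies. -/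
def refute (A : List ℕ) (m : ℕ) : ℕ → ℕ → ℕ → Bool
  | 0, _, _ => false
  | f + 1, occ, c =>
      if occ.testBit c then refute A m f occ (c + 1)
      else A.all fun a => decide (a ≤ c) &&
        (((m <<< (c - a)) &&& occ != 0) || refute A m f (occ ||| (m <<< (c - a))) c)

theorem refute_sound (A : List ℕ) (Z : Set ℤ)
    (hex : ∀ x : ℤ, ∃ a ∈ A, ∃ z ∈ Z, (a : ℤ) + z = x)
    (huniq : ∀ a ∈ A, ∀ a' ∈ A, ∀ z ∈ Z, ∀ z' ∈ Z, (a : ℤ) + z = a' + z' → z = z') :
    ∀ (f occ c : ℕ) (P : Set ℕ), (∀ z ∈ P, (z : ℤ) ∈ Z) →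
      (∀ d, occ.testBit d = true ↔ ∃ z ∈ P, ∃ a ∈ A, a + z = d) →
      refute A (maskOf A) f occ c = true → False
  | 0, _, _, _, _, _, h => by simp [refute] at h
  | f + 1, occ, c, P, hP, hocc, h => by
      rw [refute] at h
      split_ifs at h with hc
      · exact refute_sound A Z hex huniq f occ (c + 1) P hP hocc h
      · obtain ⟨a, ha, z, hz, haz⟩ := hex c
        rw [List.all_eq_true] at h
        have h' := h a ha
        simp only [Bool.and_eq_true, decide_eq_true_eq, Bool.or_eq_true] at h'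
        obtain ⟨hac, h'⟩ := h'
        have hzn : z = ((c - a : ℕ) : ℤ) := by omega
        have hzP : (c - a) ∉ P := by
          intro hmem
          apply hc
          rw [hocc]
          exact ⟨c - a, hmem, a, ha, by omega⟩
        rcases h' with h' | h'
        · have hne : (maskOf A <<< (c - a)) &&& occ ≠ 0 := by simpa using h'
          obtain ⟨d, hd⟩ := Nat.exists_testBit_of_ne_zero hne
          rw [Nat.testBit_and, Bool.and_eq_true] at hd
          obtain ⟨hd1, hd2⟩ := hd
          rw [Nat.testBit_shiftLeft, Bool.and_eq_true, decide_eq_true_eq, testBit_maskOf] at hd1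
          obtain ⟨hle, hmem⟩ := hd1
          rw [hocc] at hd2
          obtain ⟨z', hz', a', ha', hd'⟩ := hd2
          have := huniq (d - (c - a)) hmem a' ha' z hz z' (hP z' hz') (by rw [hzn]; omega)
          rw [hzn] at this
          have : c - a = z' := by exact_mod_cast this
          exact hzP (this ▸ hz')
        · refine refute_sound A Z hex huniq f _ c (insert (c - a) P) ?_ ?_ h'
          · intro w hw
            rcases hw with rfl | hw
            · rw [← hzn]; exact hz
            · exact hP w hw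
          · intro d
            rw [Nat.testBit_or, Bool.or_eq_true, hocc, Nat.testBit_shiftLeft, Bool.and_eq_true,
              decide_eq_true_eq, testBit_maskOf]
            constructor
            · rintro (⟨w, hw, b, hb, hd⟩ | ⟨hle, hmem⟩)
              · exact ⟨w, Or.inr hw, b, hb, hd⟩
              · exact ⟨c - a, Or.inl rfl, d - (c - a), hmem, by omega⟩
            · rintro ⟨w, rfl | hw, b, hb, hd⟩
              · right
                refine ⟨by omega, ?_⟩
                have : d - (c - a) = b := by omega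
                rw [this]; exact hb
              · exact Or.inl ⟨w, hw, b, hb, hd⟩

theorem not_isTile_of_refute (A : List ℕ) (f : ℕ)
    (h : refute A (maskOf A) f (maskOf A <<< 32) 32 = true) :
    ¬ IsTile {x : ℤ | ∃ a ∈ A, (a : ℤ) = x} := by
  rintro ⟨ι, z, hdisj, hunion⟩
  rw [Set.eq_univ_iff_forall] at hunion
  obtain ⟨i₀, -⟩ := Set.mem_iUnion.1 (hunion 0)
  refine refute_sound A (Set.range fun i => z i + (32 - z i₀)) ?_ ?_ f _ 32 {32} ?_ ?_ h
  · intro x
    obtain ⟨i, s, ⟨a, ha, has⟩, hx⟩ := Set.mem_iUnion.1 (hunion (x - (32 - z i₀)))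
    refine ⟨a, ha, z i + (32 - z i₀), ⟨i, rfl⟩, ?_⟩
    rw [has]
    linarith
  · rintro a ha a' ha' _ ⟨i, rfl⟩ _ ⟨j, rfl⟩ hEq
    by_contra hne
    have hij : i ≠ j := by
      rintro rfl
      exact hne rfl
    have hd := hdisj i j hij
    rw [Set.disjoint_left] at hd
    exact hd (a := (a : ℤ) + z i) ⟨a, ⟨a, ha, rfl⟩, rfl⟩ ⟨a', ⟨a', ha', rfl⟩, by
      simp only at hEq
      linarith⟩
  · rintro w rfl
    exact ⟨i₀, by push_cast; ring⟩
  · intro d
    rw [Nat.testBit_shiftLeft, Bool.and_eq_true, decide_eq_true_eq, testBit_maskOf]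
    constructor
    · rintro ⟨hle, hmem⟩
      exact ⟨32, rfl, d - 32, hmem, by omega⟩
    · rintro ⟨w, rfl, b, hb, hd⟩
      refine ⟨by omega, ?_⟩
      have : d - 32 = b := by omega
      rw [this]; exact hb

/-! ### Counting -/

theorem set_eq (l : List ℕ) (m : ℕ) :
    ((sub (l.map (fun n : ℕ => (n : ℤ))) m).toFinset : Set ℤ) =
      {x : ℤ | ∃ a ∈ sub l m, (a : ℤ) = x} := by
  ext x
  simp [sub_map]

theorem T_le (l : List ℕ) (hl : l.Nodup) (L : List ℕ) (f : ℕ)
    (hL : ∀ m < 2 ^ l.length, m ∈ L ∨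
      refute (sub l m) (maskOf (sub l m)) f (maskOf (sub l m) <<< 32) 32 = true) :
    T (l.map (fun n : ℕ => (n : ℤ))).toFinset ≤ L.length := by
  classical
  have hl' : (l.map (fun n : ℕ => (n : ℤ))).Nodup := hl.map (fun a b h => by exact_mod_cast h)
  have hsub : {A : Finset ℤ | A ⊆ (l.map (fun n : ℕ => (n : ℤ))).toFinset ∧ IsTile (A : Set ℤ)} ⊆
      ((L.map fun m => (sub (l.map (fun n : ℕ => (n : ℤ))) m).toFinset).toFinset :
        Set (Finset ℤ)) := by
    rintro A ⟨hA, hT⟩
    obtain ⟨m, hm, h⟩ := exists_mask _ hl' (A : Set ℤ)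
    have hEq : (sub (l.map (fun n : ℕ => (n : ℤ))) m).toFinset = A := by
      ext x
      rw [List.mem_toFinset, h]
      constructor
      · exact fun h' => h'.2
      · exact fun h' => ⟨by simpa using hA h', h'⟩
    rw [List.length_map] at hm
    rcases hL m hm with hmL | hr
    · simp only [List.coe_toFinset, Set.mem_ofPred_eq, List.mem_map]
      exact ⟨m, hmL, hEq⟩
    · exfalso
      rw [← hEq, set_eq] at hT
      exact not_isTile_of_refute _ f hr hT
  calc T _ ≤ ((L.map fun m => (sub (l.map (fun n : ℕ => (n : ℤ))) m).toFinset).toFinset :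
        Set (Finset ℤ)).ncard := Set.ncard_le_ncard hsub (Finset.finite_toSet _)
    _ = ((L.map fun m => (sub (l.map (fun n : ℕ => (n : ℤ))) m).toFinset).toFinset).card :=
        Set.ncard_coe_finset _
    _ ≤ (L.map fun m => (sub (l.map (fun n : ℕ => (n : ℤ))) m).toFinset).length :=
        List.toFinset_card_le _
    _ = L.length := List.length_map _

theorem le_T (l : List ℕ) (hl : l.Nodup) (L : List (ℕ × ℕ × List ℕ))
    (hnd : (L.map Prod.fst).Nodup)
    (hL : ∀ c ∈ L, c.1 < 2 ^ l.length ∧ certOK (sub l c.1) c.2.1 c.2.2 = true) :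
    L.length ≤ T (l.map (fun n : ℕ => (n : ℤ))).toFinset := by
  classical
  have hl' : (l.map (fun n : ℕ => (n : ℤ))).Nodup := hl.map (fun a b h => by exact_mod_cast h)
  set g : ℕ → Finset ℤ := fun m => (sub (l.map (fun n : ℕ => (n : ℤ))) m).toFinset with hg
  have hinj : Set.InjOn g {m | m < 2 ^ l.length} := by
    intro m hm m' hm' h
    refine mask_inj _ hl' m m' (by simpa using hm) (by simpa using hm') (fun x => ?_)
    have := congrArg (fun s : Finset ℤ => x ∈ s) h
    simpa [hg] using this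
  have hfin : {A : Finset ℤ | A ⊆ (l.map (fun n : ℕ => (n : ℤ))).toFinset ∧
      IsTile (A : Set ℤ)}.Finite :=
    Set.Finite.subset (Finset.finite_toSet (l.map (fun n : ℕ => (n : ℤ))).toFinset.powerset)
      (fun A hA => Finset.mem_coe.2 (Finset.mem_powerset.2 hA.1))
  have hsub : (((L.map Prod.fst).toFinset.image g : Finset (Finset ℤ)) : Set (Finset ℤ)) ⊆
      {A : Finset ℤ | A ⊆ (l.map (fun n : ℕ => (n : ℤ))).toFinset ∧ IsTile (A : Set ℤ)} := by
    intro A hA
    simp only [Finset.coe_image, List.coe_toFinset, Set.mem_image, Set.mem_ofPred_eq,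
      List.mem_map] at hA
    obtain ⟨m, ⟨c, hc, rfl⟩, rfl⟩ := hA
    obtain ⟨-, hcert⟩ := hL c hc
    refine ⟨?_, ?_⟩
    · intro x hx
      simp only [hg, List.mem_toFinset] at hx
      exact List.mem_toFinset.2 (mem_of_mem_sub _ _ _ hx)
    · have := isTile_of_cert _ _ _ hcert
      rw [← set_eq] at this
      exact this
  have hcard : ((L.map Prod.fst).toFinset.image g).card = L.length := by
    rw [Finset.card_image_of_injOn, List.toFinset_card_of_nodup hnd, List.length_map]
    intro m hm m' hm' h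
    simp only [List.coe_toFinset, List.mem_map, Set.mem_ofPred_eq] at hm hm'
    obtain ⟨c, hc, rfl⟩ := hm
    obtain ⟨c', hc', rfl⟩ := hm'
    exact hinj (hL c hc).1 (hL c' hc').1 h
  calc L.length = ((L.map Prod.fst).toFinset.image g).card := hcard.symm
    _ = (((L.map Prod.fst).toFinset.image g : Finset (Finset ℤ)) : Set (Finset ℤ)).ncard :=
        (Set.ncard_coe_finset _).symm
    _ ≤ T _ := Set.ncard_le_ncard hsub hfin

/-- Masks of 213 tiles in `{0,2,6,8,12,13,14,19,25,31}` with a period and a complement. -/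
def certM : List (ℕ × ℕ × List ℕ) := [
  (1, 1, [0]), (2, 1, [0]), (3, 4, [0, 1]), (4, 1, [0]), (5, 4, [0, 1]), (6, 8, [0, 1, 2, 3]),
  (8, 1, [0]), (9, 16, [0, 1, 2, 3, 4, 5, 6, 7]), (10, 4, [0, 1]), (12, 4, [0, 1]), (16, 1, [0]),
  (17, 8, [0, 1, 2, 3]), (18, 4, [0, 1]), (20, 4, [0, 1]), (21, 9, [0, 1, 2]), (23, 8, [0, 1]),
  (24, 8, [0, 1, 2, 3]), (30, 8, [0, 1]), (32, 1, [0]), (33, 2, [0]), (34, 2, [0]), (35, 3, [0]),
  (36, 2, [0]), (38, 3, [0]), (40, 2, [0]), (41, 3, [0]), (44, 3, [0]), (48, 2, [0]),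
  (50, 3, [0]), (56, 3, [0]), (64, 1, [0]), (65, 4, [0, 1]), (66, 8, [0, 1, 2, 3]),
  (68, 16, [0, 1, 2, 3, 4, 5, 6, 7]), (72, 4, [0, 1]), (74, 9, [0, 1, 2]),
  (77, 16, [0, 1, 4, 5]), (79, 5, [0]), (80, 4, [0, 1]), (83, 8, [0, 1]), (90, 8, [0, 1]),
  (93, 5, [0]), (96, 2, [0]), (97, 3, [0]), (100, 3, [0]), (103, 5, [0]), (112, 3, [0]),
  (117, 5, [0]), (128, 1, [0]), (129, 2, [0]), (130, 2, [0]), (131, 3, [0]), (132, 2, [0]),
  (134, 3, [0]), (136, 2, [0]), (137, 3, [0]), (140, 3, [0]), (143, 5, [0]), (144, 2, [0]),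
  (146, 3, [0]), (152, 3, [0]), (157, 5, [0]), (160, 4, [0, 1]), (163, 4, [0]), (165, 4, [0]),
  (167, 5, [0]), (170, 4, [0]), (172, 4, [0]), (175, 12, [0, 3]), (178, 4, [0]), (180, 4, [0]),
  (181, 5, [0]), (190, 12, [0, 3]), (192, 2, [0]), (193, 3, [0]), (196, 3, [0]), (208, 3, [0]),
  (225, 4, [0]), (232, 4, [0]), (237, 12, [0, 3]), (240, 4, [0]), (252, 12, [0, 3]),
  (256, 1, [0]), (257, 2, [0]), (258, 2, [0]), (259, 3, [0]), (260, 2, [0]), (262, 3, [0]),
  (264, 2, [0]), (265, 3, [0]), (268, 3, [0]), (272, 2, [0]), (274, 3, [0]), (280, 3, [0]),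
  (288, 8, [0, 1, 2, 3]), (294, 8, [0, 2]), (305, 8, [0, 2]), (312, 8, [0, 2]), (320, 2, [0]),
  (321, 3, [0]), (324, 3, [0]), (334, 5, [0]), (336, 3, [0]), (348, 5, [0]), (354, 8, [0, 2]),
  (358, 5, [0]), (371, 24, [0, 3, 6, 9]), (372, 5, [0]), (384, 4, [0, 1]), (387, 4, [0]),
  (389, 4, [0]), (394, 4, [0]), (396, 4, [0]), (398, 5, [0]), (399, 12, [0, 3]), (402, 4, [0]),
  (404, 4, [0]), (412, 5, [0]), (414, 12, [0, 3]), (416, 9, [0, 1, 2]), (422, 5, [0]),
  (436, 5, [0]), (437, 18, [0, 2, 4]), (449, 4, [0]), (456, 4, [0]), (461, 12, [0, 3]),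
  (464, 4, [0]), (476, 12, [0, 3]), (490, 18, [0, 2, 4]), (511, 9, [0]), (512, 1, [0]),
  (513, 2, [0]), (514, 2, [0]), (515, 3, [0]), (516, 2, [0]), (518, 3, [0]), (520, 2, [0]),
  (521, 3, [0]), (524, 3, [0]), (528, 2, [0]), (530, 3, [0]), (536, 3, [0]), (544, 4, [0, 1]),
  (547, 4, [0]), (549, 4, [0]), (554, 4, [0]), (556, 4, [0]), (559, 12, [0, 3]), (562, 4, [0]),
  (564, 4, [0]), (574, 12, [0, 3]), (576, 2, [0]), (577, 3, [0]), (580, 3, [0]), (587, 5, [0]),
  (592, 3, [0]), (601, 5, [0]), (609, 4, [0]), (611, 5, [0]), (616, 4, [0]), (621, 12, [0, 3]),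
  (624, 4, [0]), (625, 5, [0]), (636, 12, [0, 3]), (640, 8, [0, 1, 2, 3]), (646, 8, [0, 2]),
  (651, 5, [0]), (657, 8, [0, 2]), (664, 8, [0, 2]), (665, 5, [0]), (675, 5, [0]), (689, 5, [0]),
  (706, 8, [0, 2]), (723, 24, [0, 3, 6, 9]), (768, 4, [0, 1]), (771, 4, [0]), (773, 4, [0]),
  (778, 4, [0]), (780, 4, [0]), (783, 12, [0, 3]), (786, 4, [0]), (788, 4, [0]),
  (798, 12, [0, 3]), (799, 7, [0]), (827, 7, [0]), (833, 4, [0]), (840, 4, [0]), (842, 5, [0]),
  (845, 12, [0, 3]), (848, 4, [0]), (856, 5, [0]), (860, 12, [0, 3]), (862, 7, [0]),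
  (866, 5, [0]), (880, 5, [0]), (890, 7, [0]), (896, 9, [0, 1, 2]), (906, 5, [0]), (911, 7, [0]),
  (917, 18, [0, 2, 4]), (920, 5, [0]), (928, 8, [0, 1]), (930, 5, [0]), (939, 7, [0]),
  (944, 5, [0]), (951, 8, [0]), (958, 8, [0]), (970, 18, [0, 2, 4]), (974, 7, [0]),
  (991, 9, [0]), (1002, 7, [0]), (1011, 8, [0]), (1018, 8, [0])]

/-- Masks of the 210 tiles in `{1,…,10}` with a period and a complement. -/
def certI : List (ℕ × ℕ × List ℕ) := [
  (1, 1, [0]), (2, 1, [0]), (3, 2, [0]), (4, 1, [0]), (5, 4, [0, 1]), (6, 2, [0]), (7, 3, [0]),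
  (8, 1, [0]), (9, 2, [0]), (10, 4, [0, 1]), (12, 2, [0]), (14, 3, [0]), (15, 4, [0]),
  (16, 1, [0]), (17, 8, [0, 1, 2, 3]), (18, 2, [0]), (20, 4, [0, 1]), (21, 3, [0]), (24, 2, [0]),
  (28, 3, [0]), (30, 4, [0]), (31, 5, [0]), (32, 1, [0]), (33, 2, [0]), (34, 8, [0, 1, 2, 3]),
  (35, 3, [0]), (36, 2, [0]), (40, 4, [0, 1]), (42, 3, [0]), (45, 4, [0]), (48, 2, [0]),
  (49, 3, [0]), (51, 8, [0, 2]), (56, 3, [0]), (60, 4, [0]), (62, 5, [0]), (63, 6, [0]),
  (64, 1, [0]), (65, 4, [0, 1]), (66, 2, [0]), (68, 8, [0, 1, 2, 3]), (70, 3, [0]), (72, 2, [0]),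
  (73, 9, [0, 1, 2]), (75, 4, [0]), (80, 4, [0, 1]), (84, 3, [0]), (85, 8, [0, 1]), (90, 4, [0]),
  (93, 5, [0]), (96, 2, [0]), (98, 3, [0]), (102, 8, [0, 2]), (105, 4, [0]), (112, 3, [0]),
  (120, 4, [0]), (124, 5, [0]), (126, 6, [0]), (127, 7, [0]), (128, 1, [0]), (129, 2, [0]),
  (130, 4, [0, 1]), (132, 2, [0]), (133, 3, [0]), (135, 4, [0]), (136, 8, [0, 1, 2, 3]),
  (140, 3, [0]), (144, 2, [0]), (146, 9, [0, 1, 2]), (150, 4, [0]), (153, 8, [0, 2]),
  (155, 5, [0]), (160, 4, [0, 1]), (161, 3, [0]), (165, 4, [0]), (168, 3, [0]), (170, 8, [0, 1]),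
  (180, 4, [0]), (186, 5, [0]), (189, 6, [0]), (192, 2, [0]), (195, 4, [0]), (196, 3, [0]),
  (204, 8, [0, 2]), (210, 4, [0]), (217, 5, [0]), (224, 3, [0]), (225, 4, [0]), (240, 4, [0]),
  (248, 5, [0]), (252, 6, [0]), (254, 7, [0]), (255, 8, [0]), (256, 1, [0]),
  (257, 16, [0, 1, 2, 3, 4, 5, 6, 7]), (258, 2, [0]), (259, 3, [0]), (260, 4, [0, 1]),
  (264, 2, [0]), (266, 3, [0]), (270, 4, [0]), (272, 8, [0, 1, 2, 3]), (273, 3, [0]),
  (279, 5, [0]), (280, 3, [0]), (288, 2, [0]), (292, 9, [0, 1, 2]), (300, 4, [0]),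
  (306, 8, [0, 2]), (310, 5, [0]), (315, 6, [0]), (320, 4, [0, 1]), (322, 3, [0]), (330, 4, [0]),
  (336, 3, [0]), (340, 8, [0, 1]), (341, 5, [0]), (360, 4, [0]), (372, 5, [0]), (378, 6, [0]),
  (381, 7, [0]), (384, 2, [0]), (385, 3, [0]), (390, 4, [0]), (392, 3, [0]), (403, 5, [0]),
  (408, 8, [0, 2]), (420, 4, [0]), (434, 5, [0]), (441, 6, [0]), (448, 3, [0]), (450, 4, [0]),
  (455, 12, [0, 3]), (465, 5, [0]), (480, 4, [0]), (496, 5, [0]), (504, 6, [0]), (508, 7, [0]),
  (510, 8, [0]), (511, 9, [0]), (512, 1, [0]), (513, 2, [0]),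
  (514, 16, [0, 1, 2, 3, 4, 5, 6, 7]), (516, 2, [0]), (518, 3, [0]), (520, 4, [0, 1]),
  (525, 4, [0]), (527, 5, [0]), (528, 2, [0]), (532, 3, [0]), (540, 4, [0]),
  (544, 8, [0, 1, 2, 3]), (546, 3, [0]), (558, 5, [0]), (560, 3, [0]), (561, 8, [0, 2]),
  (567, 6, [0]), (576, 2, [0]), (584, 9, [0, 1, 2]), (585, 4, [0]), (589, 5, [0]), (600, 4, [0]),
  (612, 8, [0, 2]), (620, 5, [0]), (630, 6, [0]), (635, 7, [0]), (640, 4, [0, 1]), (644, 3, [0]),
  (645, 4, [0]), (651, 5, [0]), (660, 4, [0]), (672, 3, [0]), (680, 8, [0, 1]), (682, 5, [0]),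
  (693, 6, [0]), (705, 4, [0]), (713, 5, [0]), (720, 4, [0]), (744, 5, [0]), (756, 6, [0]),
  (762, 7, [0]), (765, 8, [0]), (768, 2, [0]), (770, 3, [0]), (771, 16, [0, 2, 4, 6]),
  (775, 5, [0]), (780, 4, [0]), (784, 3, [0]), (806, 5, [0]), (816, 8, [0, 2]), (819, 6, [0]),
  (837, 5, [0]), (840, 4, [0]), (868, 5, [0]), (882, 6, [0]), (889, 7, [0]), (896, 3, [0]),
  (899, 5, [0]), (900, 4, [0]), (910, 12, [0, 3]), (930, 5, [0]), (945, 6, [0]), (960, 4, [0]),
  (961, 5, [0]), (992, 5, [0]), (1008, 6, [0]), (1016, 7, [0]), (1020, 8, [0]), (1022, 9, [0]),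
  (1023, 10, [0])]

/-- The list `1, …, 10`. -/
def lI : List ℕ := [1, 2, 3, 4, 5, 6, 7, 8, 9, 10]

/-- The ten elements of the better set. -/
def lM : List ℕ := [0, 2, 6, 8, 12, 13, 14, 19, 25, 31]

theorem certM_ok : certM.length = 213 ∧ (certM.map Prod.fst).Nodup ∧
    ∀ c ∈ certM, c.1 < 2 ^ lM.length ∧ certOK (sub lM c.1) c.2.1 c.2.2 = true := by
  decide +kernel

theorem certI_ok : certI.length = 210 ∧ (certI.map Prod.fst).Nodup ∧
    ∀ c ∈ certI, c.1 < 2 ^ lI.length ∧ certOK (sub lI c.1) c.2.1 c.2.2 = true := by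
  decide +kernel

/-- The set of masks of the tiles in `{1,…,10}`, as one bit mask. -/
def maskI : ℕ := 146767534192258961496254241231091401878566681335770943918761002981208701158004999995613089553012111944834652584411398534614302367928732237886722297947565088773672480733947268459105059839383319714832846190560792157878180705042154681338429214574787986006958729477686156714763916711498971962069876119763213080574

theorem maskI_ok : ((List.range 1024).filter (fun m => maskI.testBit m)).length = 210 := by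
  decide +kernel

theorem refuteI_all : (List.range 1024).all (fun m => maskI.testBit m ||
    refute (sub lI m) (maskOf (sub lI m)) 60 (maskOf (sub lI m) <<< 32) 32) = true := by
  decide +kernel

theorem refuteI_ok : ∀ m < 2 ^ lI.length,
    m ∈ (List.range 1024).filter (fun m => maskI.testBit m) ∨
    refute (sub lI m) (maskOf (sub lI m)) 60 (maskOf (sub lI m) <<< 32) 32 = true := by
  intro m hm
  have hm' : m < 1024 := hm
  have h := List.all_eq_true.1 refuteI_all m (List.mem_range.2 hm')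
  rcases (Bool.or_eq_true _ _).mp h with h | h
  · exact Or.inl (List.mem_filter.2 ⟨List.mem_range.2 hm', h⟩)
  · exact Or.inr h

theorem lI_toFinset : (lI.map (fun n : ℕ => (n : ℤ))).toFinset = Finset.Icc 1 10 := by
  decide +kernel

theorem lM_toFinset : (lM.map (fun n : ℕ => (n : ℤ))).toFinset =
    {0, 2, 6, 8, 12, 13, 14, 19, 25, 31} := by
  decide +kernel

/-- The interval `{1,…,10}` contains exactly `210` tiles. -/
theorem T_interval : T (Finset.Icc 1 10) = 210 := by
  apply le_antisymm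
  · have h := T_le lI (by decide) _ 60 refuteI_ok
    rw [maskI_ok, lI_toFinset] at h
    exact h
  · have h := le_T lI (by decide) certI certI_ok.2.1 certI_ok.2.2
    rw [certI_ok.1, lI_toFinset] at h
    exact h

/-- The set `{0,2,6,8,12,13,14,19,25,31}` contains at least `213` tiles. -/
theorem T_set : 213 ≤ T {0, 2, 6, 8, 12, 13, 14, 19, 25, 31} := by
  have h := le_T lM (by decide) certM certM_ok.2.1 certM_ok.2.2
  rw [certM_ok.1, lM_toFinset] at h
  exact h

/-- Q2 is false: the statement that `T M ≤ T [n]` for every `n` and every `n`-element set `M` of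
integers fails for `n = 10`, where `T [10] = 210` but the ten-element set
`{0,2,6,8,12,13,14,19,25,31}` contains at least `213` tiles. -/
theorem result :
    (¬ ∀ (n : ℕ) (M : Finset ℤ), M.card = n → T M ≤ T (Finset.Icc 1 (n : ℤ))) ∧
      T (Finset.Icc 1 10) = 210 ∧
      ({0, 2, 6, 8, 12, 13, 14, 19, 25, 31} : Finset ℤ).card = 10 ∧
      213 ≤ T {0, 2, 6, 8, 12, 13, 14, 19, 25, 31} := by
  refine ⟨fun h => ?_, T_interval, by decide, T_set⟩
  have h1 := h 10 {0, 2, 6, 8, 12, 13, 14, 19, 25, 31} (by decide)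
  have h2 := T_interval
  have h3 := T_set
  norm_num at h1
  omega

end Pool.Agent.Results.MP_237b44_co.IntervalNotOptimal
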