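import Pool.Agent.Lib_helper33.Tiles.Asym

set_option autoImplicit false

/-!
`MP_237b44_co`, Q1 for all sets whose differences have small smooth parts, in particular for all
sets of diameter at most exp ((log n) ^ (2 - δ)).
-/

namespace Pool.Agent.Results.MP_237b44_co.SmallDiameter

/-- `S ⊆ ℤ` is a tile: there are integers `z i` such that `ℤ` is the disjoint union of the
translates `S + z i`. -/
def IsTile (S : Set ℤ) : Prop :=
  ∃ (ι : Type) (z : ι → ℤ),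
    (∀ i j, i ≠ j → Disjoint {x : ℤ | ∃ s ∈ S, x = s + z i} {x : ℤ | ∃ s ∈ S, x = s + z j}) ∧
    (⋃ i, {x : ℤ | ∃ s ∈ S, x = s + z i}) = Set.univ

/-- `T M` is the number of subsets of the finite set `M ⊆ ℤ` that are tiles. -/
noncomputable def T (M : Finset ℤ) : ℕ :=
  {A : Finset ℤ | A ⊆ M ∧ IsTile (A : Set ℤ)}.ncard

theorem exists_tiles {A : Finset ℤ} (h : IsTile (A : Set ℤ)) : ∃ B, Tiles33.Tiles A B := by
  obtain ⟨ι, z, hdis, huniv⟩ := h
  refine ⟨Set.range z, fun x => ?_⟩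
  have hx : x ∈ ⋃ i, {x : ℤ | ∃ s ∈ (A : Set ℤ), x = s + z i} := by
    rw [huniv]
    exact Set.mem_univ x
  obtain ⟨i, s, hs, hxs⟩ := Set.mem_iUnion.1 hx
  refine ⟨s, ⟨hs, i, by rw [hxs]; ring⟩, ?_⟩
  rintro t ⟨ht, j, hj⟩
  by_cases hij : i = j
  · subst hij
    linarith
  · have h1 : x ∈ {x : ℤ | ∃ s ∈ (A : Set ℤ), x = s + z i} := ⟨s, hs, hxs⟩
    have h2 : x ∈ {x : ℤ | ∃ s ∈ (A : Set ℤ), x = s + z j} := ⟨t, ht, by linarith⟩
    exact absurd h2 (Set.disjoint_left.1 (hdis i j hij) h1)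

/-- **Q1 for sets whose differences have small smooth parts.** For all `δ, ε > 0` and every large
`n`: if `M` is a set of `n` integers such that, for all distinct `x, y ∈ M`, every divisor of
`x - y` without prime factors exceeding `n` is at most `exp ((log n) ^ (2 - δ))`, then
`T M ≤ (3 ^ (1 / 3) + ε) ^ n`. -/
theorem result : ∀ δ ε : ℝ, 0 < δ → 0 < ε → ∃ n₀ : ℕ, ∀ M : Finset ℤ, n₀ ≤ M.card →
    (∀ x ∈ M, ∀ y ∈ M, x ≠ y → ∀ d : ℕ, (d : ℤ) ∣ x - y →
      (∀ p : ℕ, p.Prime → p ∣ d → p ≤ M.card) →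
        (d : ℝ) ≤ Real.exp (Real.log M.card ^ (2 - δ))) →
    (T M : ℝ) ≤ ((3 : ℝ) ^ ((1 : ℝ) / 3) + ε) ^ M.card := by
  classical
  intro δ ε hδ hε
  obtain ⟨n₀, hn₀⟩ := Tiles33.asym hδ hε
  refine ⟨n₀, fun M hM hsm => ?_⟩
  set X : ℕ := ⌊Real.exp (Real.log M.card ^ (2 - δ))⌋₊ with hX
  have hXle : (X : ℝ) ≤ Real.exp (Real.log M.card ^ (2 - δ)) := Nat.floor_le (Real.exp_pos _).le
  have hsp : ∀ x ∈ M, ∀ y ∈ M, x ≠ y → Tiles33.SmoothPartLe M.card X (x - y).natAbs := by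
    intro x hx y hy hxy d hd hp
    exact Nat.le_floor (hsm x hx y hy hxy d (Int.natCast_dvd.2 hd) hp)
  set S : Finset (Finset ℤ) := M.powerset.filter fun A => IsTile (A : Set ℤ) with hS
  have hT : T M = S.card := by
    rw [T, ← Set.ncard_coe_finset]
    congr 1
    ext A
    simp only [hS, Set.mem_ofPred_eq, Finset.coe_filter, Finset.mem_powerset]
  rw [hT]
  refine (Tiles33.card_tiles_le hsp S fun A hA => ?_).trans (hn₀ M.card hM X hXle)
  rw [hS, Finset.mem_filter, Finset.mem_powerset] at hA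
  exact ⟨hA.1, exists_tiles hA.2⟩

end Pool.Agent.Results.MP_237b44_co.SmallDiameter
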